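import Mathlib

namespace Pool.Agent.Results.MP_e7dc11_co.V33

open Equiv

/-- the associated graph: two distinct points are adjacent when they lie in a common block -/
def K {v : ℕ} (blk : Fin v → Finset (Fin v)) : SimpleGraph (Fin v) where
  Adj x y := x ≠ y ∧ ∃ b, x ∈ blk b ∧ y ∈ blk b
  symm := ⟨fun _ _ h => ⟨h.1.symm, h.2.imp fun _ t => t.symm⟩⟩
  loopless := ⟨fun _ h => h.1 rfl⟩

/-- a connected symmetric configuration `v_3` -/
structure Config (v : ℕ) where
  blk : Fin v → Finset (Fin v)
  inj : Function.Injective blk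
  card3 : ∀ b, (blk b).card = 3
  deg3 : ∀ x, (Finset.univ.filter fun b => x ∈ blk b).card = 3
  lin : ∀ x y, x ≠ y → ∀ b b', x ∈ blk b → y ∈ blk b → x ∈ blk b' → y ∈ blk b' → b = b'
  conn : (K blk).Connected

variable {v : ℕ}

/-- an orientation: a cyclic order on each block -/
def IsOri (X : Config v) (ω : Fin v → Perm (Fin v)) : Prop := ∀ b, (ω b).IsCycle ∧ (ω b).support = X.blk b

/-- face tracing on darts for the rotation system `ρ` -/
def face (ρ : Fin v → Perm (Fin v)) (d : Fin v × Fin v) : Fin v × Fin v := (d.2, ρ d.2 d.1)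

/-- darts of `K` that do not run along an oriented block triangle -/
def NonBlock (blk : Fin v → Finset (Fin v)) (ω : Fin v → Perm (Fin v)) (d : Fin v × Fin v) : Prop :=
  (K blk).Adj d.1 d.2 ∧ ¬ ∃ b, d.1 ∈ blk b ∧ d.2 = ω b d.1

/-- upper embeddable in orientation `ω`: a rotation system of `K` in which each block is a face traced in
the order `ω b` and all other darts lie on one face -/
def Upper (X : Config v) (ω : Fin v → Perm (Fin v)) : Prop :=
  ∃ ρ : Fin v → Perm (Fin v), (∀ x, (ρ x).IsCycle ∧ ∀ y, y ∈ (ρ x).support ↔ (K X.blk).Adj x y) ∧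
    (∀ b, ∀ x ∈ X.blk b, face ρ (x, ω b x) = (ω b x, ω b (ω b x))) ∧
    ∀ d d', NonBlock X.blk ω d → NonBlock X.blk ω d' → ∃ k, (face ρ)^[k] d = d'

instance (blk : Fin v → Finset (Fin v)) : DecidableRel (K blk).Adj := fun x y =>
  inferInstanceAs (Decidable (x ≠ y ∧ ∃ b, x ∈ blk b ∧ y ∈ blk b))

instance (blk : Fin v → Finset (Fin v)) (ω : Fin v → Perm (Fin v)) (d : Fin v × Fin v) :
    Decidable (NonBlock blk ω d) := by unfold NonBlock; infer_instance

def tb (N f : ℕ) : ℕ := (N >>> (7 * f)) % 128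
def fn (N f : ℕ) : Fin 33 := Fin.ofNat 33 (tb N f)
def NB (o : Bool) : ℕ := if o then 8731773631822365953640456441594619861543287843652197061797477056791804058138962741766760617939875516683094708763892592578538943435128862582939047005494122375846885545679562892737088083460293858184288435997841 else 8731773631822365953640456441594619861543287843652197061797477056791804058138962741766760617939875516683094708763892592578538943435128862582939047005494122375846885545679562892737088083460293858184288169659537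
def NA (o : Bool) : ℕ := if o then 8746783807875498278043859285305865763863257079234013344271640509102410200184560296422162434437120559461859022220516697423962296928912666921776083554928667429362475259733247555564049001416258579365659075216130 else 8746783807875498278043859285305865763863257079234013344271640509102410200184560296422162434437120559461859022220516697423962296928912666921776083554928667429362475259733247555564049001416258578802709125989121
def NC (o : Bool) : ℕ := if o then 8092117550324128068367160578996631644967678488926020631010226844414297647801732786717619077209440630083912117146034500505346265881231947133426837059585966762069810937492267686135564307191558021330997084455425 else 8092117550324128068367160578996631644967678488926020631010226844414297647801732786717619077209440630083912117146034500505346265881231947133426837059585966762069810937492267686135564307191558021893947033682434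
def NX (o : Bool) : ℕ := if o then 26887494217545987575169175607535434167119488713601743134022418852381966690520936701719374147147096624302178379954794759804056761726661052188296311192094436739069788552566362950123859260640910652297754866288903 else 26887494217545987575169175607535434167119488713601743134022418852381966690520936701719374147147096624302178379954794759804056761726661052188296311192094436739069788552566362950123859260640910650608905020705027
def NT : ℕ := 10352031061019992020927521837861378909800950117296375570123007026937625743413134764693155052970771907478583268305266124651317296656581680613700057784584408454076634992718973302733324925956298202970614401352065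
def L (o : Bool) (b : Fin 33) : List (Fin 33) := [fn (NB o) (3 * b), fn (NB o) (3 * b + 1), fn (NB o) (3 * b + 2)]
def blk (b : Fin 33) : Finset (Fin 33) := (L true b).toFinset
def om (o : Bool) (b : Fin 33) : Perm (Fin 33) := (L o b).formPerm
def aF (o : Bool) (f : ℕ) : Fin 33 := fn (NA o) f
def cF (o : Bool) (f : ℕ) : Fin 33 := fn (NC o) f
def xF (f : ℕ) : Fin 33 := Fin.ofNat 33 (f / 3)
def sw (s : ℕ → Bool) (f : ℕ) : ℕ := 3 * (f / 3) + (f % 3 + if s (f / 3) then 1 else 2) % 3
def T (o : Bool) (s : ℕ → Bool) (f : ℕ) : ℕ := tb (NX o) (sw s f)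
def dart (o : Bool) (f : ℕ) : Fin 33 × Fin 33 := (cF o f, xF f)
def nb (o : Bool) (x : ℕ) : List (Fin 33) :=
  [aF o (3 * x), cF o (3 * x), aF o (3 * x + 1), cF o (3 * x + 1), aF o (3 * x + 2), cF o (3 * x + 2)]

theorem low : ∀ x : Fin 33, x ≠ 0 → ∃ y < x, (K blk).Adj y x := by decide +kernel

theorem lin' : ∀ b b' : Fin 33, b ≠ b' → (blk b ∩ blk b').card ≤ 1 := by decide +kernel

def X : Config 33 where
  blk := blk
  inj := by intro a b; revert a b; decide +kernel
  card3 := by decide +kernel
  deg3 := by decide +kernel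
  lin := fun x y hxy b b' h1 h2 h3 h4 => by
    by_contra h
    exact hxy (Finset.card_le_one.1 (lin' b b' h) _ (Finset.mem_inter.2 ⟨h1, h3⟩) _ (Finset.mem_inter.2 ⟨h2, h4⟩))
  conn := by
    have h : ∀ n : ℕ, ∀ x : Fin 33, x.val = n → (K blk).Reachable 0 x := by
      intro n
      induction n using Nat.strong_induction_on with
      | _ n ih =>
        intro x hx
        by_cases h0 : x = 0
        · rw [h0]
        · obtain ⟨y, h1, h2⟩ := low x h0
          exact (ih y (hx ▸ h1) y rfl).trans h2.reachable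
    exact ⟨fun x y => (h _ x rfl).symm.trans (h _ y rfl)⟩

theorem Lfacts : ∀ o b, (L o b).Nodup ∧ (L o b).toFinset = blk b := by decide +kernel

theorem ori (o : Bool) : IsOri X (om o) := fun b =>
  ⟨List.isCycle_formPerm (Lfacts o b).1 (by simp [L]), by
    rw [om, List.support_formPerm_of_nodup _ (Lfacts o b).1 (by simp [L])]; exact (Lfacts o b).2⟩

theorem nxfacts : ∀ o, ∀ g < 99, tb (NX o) g < 99 ∧ cF o (tb (NX o) g) = xF g ∧ xF (tb (NX o) g) = aF o g := by
  decide +kernel

theorem sw_lt (s : ℕ → Bool) {f : ℕ} (hf : f < 99) : sw s f < 99 ∧ xF (sw s f) = xF f := by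
  have : sw s f / 3 = f / 3 := by unfold sw; omega
  exact ⟨by omega, by rw [xF, xF, this]⟩

theorem iter (o : Bool) (s : ℕ → Bool) (ρ : Fin 33 → Perm (Fin 33))
    (h : ∀ f < 99, ρ (xF f) (cF o f) = aF o (sw s f)) (k : ℕ) : ∀ f < 99,
    (T o s)^[k] f < 99 ∧ (face ρ)^[k] (dart o f) = dart o ((T o s)^[k] f) := by
  induction k with
  | zero => intro f hf; exact ⟨hf, rfl⟩
  | succ k ih =>
    intro f hf
    obtain ⟨h1, h2, h3⟩ := nxfacts o _ (sw_lt s hf).1
    have : face ρ (dart o f) = dart o (T o s f) := by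
      simp only [face, dart, T]; rw [h2, h3, h f hf, (sw_lt s hf).2]
    rw [Function.iterate_succ_apply, Function.iterate_succ_apply, this]
    exact ih _ h1

def sg : ℕ → Bool := Nat.testBit 5236234405
def rl (x : Fin 33) : List (Fin 33) := if sg x then nb true x else
  [aF true (3 * x), cF true (3 * x), aF true (3 * x + 2), cF true (3 * x + 2), aF true (3 * x + 1), cF true (3 * x + 1)]

theorem rlfacts : ∀ x, (rl x).Nodup ∧ (rl x).length = 6 ∧ ∀ y, y ∈ (rl x).toFinset ↔ (K blk).Adj x y := by
  decide +kernel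
theorem rlblk : ∀ b, ∀ x ∈ blk b, face (fun x => (rl x).formPerm) (x, om true b x) =
    (om true b x, om true b (om true b x)) := by decide +kernel
theorem rlsw : ∀ f < 99, (rl (xF f)).formPerm (cF true f) = aF true (sw sg f) := by decide +kernel
theorem nbdart : ∀ d : Fin 33 × Fin 33, NonBlock blk (om true) d → ∃ f < 99, d = dart true f := by decide +kernel
theorem orb : (T true sg)^[99] 0 = 0 ∧ ∀ f < 99, ∃ k < 99, (T true sg)^[k] 0 = f := by decide +kernel

theorem up : Upper X (om true) := by
  refine ⟨fun x => (rl x).formPerm, fun x => ⟨List.isCycle_formPerm (rlfacts x).1 (by rw [(rlfacts x).2.1]; omega),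
    fun y => ?_⟩, rlblk, fun d d' h h' => ?_⟩
  · rw [List.support_formPerm_of_nodup _ (rlfacts x).1 (fun z hz => by have := (rlfacts x).2.1; simp [hz] at this)]
    exact (rlfacts x).2.2 y
  · obtain ⟨f, hf, rfl⟩ := nbdart d h
    obtain ⟨f', hf', rfl⟩ := nbdart d' h'
    obtain ⟨i, hi, rfl⟩ := orb.2 f hf
    obtain ⟨j, hj, rfl⟩ := orb.2 f' hf'
    refine ⟨j + (99 - i), ?_⟩
    rw [(iter true sg _ rlsw _ _ hf).2, ← Function.iterate_add_apply, show j + (99 - i) + i = j + 99 by omega,
      Function.iterate_add_apply, orb.1]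

theorem inv {α : Type} [DecidableEq α] [Fintype α] {ρ : Perm α} (hc : ρ.IsCycle) (S : List α)
    (hS : ∀ x ∈ S, ρ x ∈ S) {x y : α} (hx : x ∈ S) (h1 : x ∈ ρ.support) (h2 : y ∈ ρ.support) : y ∈ S := by
  obtain ⟨i, rfl⟩ := hc.exists_pow_eq (Perm.mem_support.1 h1) (Perm.mem_support.1 h2)
  clear h2
  induction i with
  | zero => exact hx
  | succ i ih => rw [pow_succ', Perm.mul_apply]; exact hS _ ih

theorem rot {α : Type} [DecidableEq α] [Fintype α] {ρ : Perm α} (hc : ρ.IsCycle) {a0 c0 a1 c1 a2 c2 : α}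
    (hn : [a0, c0, a1, c1, a2, c2].Nodup) (hs : ∀ y, y ∈ ρ.support ↔ y ∈ [a0, c0, a1, c1, a2, c2])
    (h0 : ρ a0 = c0) (h1 : ρ a1 = c1) (h2 : ρ a2 = c2) :
    (ρ c0 = a1 ∧ ρ c1 = a2 ∧ ρ c2 = a0) ∨ (ρ c0 = a2 ∧ ρ c1 = a0 ∧ ρ c2 = a1) := by
  have m0 := (hs _).1 (Perm.apply_mem_support.2 ((hs c0).2 (by simp)))
  have m1 := (hs _).1 (Perm.apply_mem_support.2 ((hs c1).2 (by simp)))
  have m2 := (hs _).1 (Perm.apply_mem_support.2 ((hs c2).2 (by simp)))
  have n0 : ρ c0 ≠ a0 := fun h => by
    have := inv hc [a0, c0] (by simp [h, h0]) (x := a0) (y := a1) (by simp) ((hs _).2 (by simp)) ((hs _).2 (by simp))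
    simp at this hn; grind
  have n1 : ρ c1 ≠ a1 := fun h => by
    have := inv hc [a1, c1] (by simp [h, h1]) (x := a1) (y := a0) (by simp) ((hs _).2 (by simp)) ((hs _).2 (by simp))
    simp at this hn; grind
  have n2 : ρ c2 ≠ a2 := fun h => by
    have := inv hc [a2, c2] (by simp [h, h2]) (x := a2) (y := a0) (by simp) ((hs _).2 (by simp)) ((hs _).2 (by simp))
    simp at this hn; grind
  have hi : ∀ x y, ρ x = ρ y → x = y := fun x y h => ρ.injective h
  simp only [List.mem_cons, List.not_mem_nil, or_false] at m0 m1 m2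
  simp only [List.nodup_cons, List.mem_cons, List.not_mem_nil, or_false, not_or] at hn
  grind

theorem nbfacts : ∀ x < 33, (nb false x).Nodup ∧ (∀ y, (K blk).Adj (xF (3 * x)) y ↔ y ∈ nb false x) := by
  decide +kernel
theorem acfacts : ∀ f < 99, aF false f ∈ blk (fn NT f) ∧ om false (fn NT f) (aF false f) = xF f ∧
    om false (fn NT f) (xF f) = cF false f ∧ NonBlock blk (om false) (dart false f) := by decide +kernel
theorem dart_inj : ∀ f < 99, ∀ g < 99, dart false f = dart false g → f = g := by decide +kernel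

def ents : List (ℕ × ℕ) := [(9, 8), (18, 1), (30, 9), (39, 4), (51, 2), (60, 6), (75, 5), (84, 51)]
def node (g : ℕ) : Bool := Nat.blt g 9 || (ents.map Prod.fst).contains g

def path (t : ℕ → Bool) (lo hi r : ℕ) : ℕ → ℕ → Bool
  | 0, _ => false
  | k + 1, f => T false t f == r || (Nat.ble (3 * lo) (T false t f) && Nat.blt (T false t f) (3 * hi) &&
      !node (T false t f) && path t lo hi r k (T false t f))

def Hop (s : ℕ → Bool) (f r : ℕ) : Prop :=
  ∃ k > 0, (T false s)^[k] f = r ∧ ∀ j, 0 < j → j < k → node ((T false s)^[j] f) = false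

theorem path_sound {s t : ℕ → Bool} {lo hi r : ℕ} (h : ∀ x, lo ≤ x → x < hi → s x = t x) (k : ℕ) :
    ∀ f, 3 * lo ≤ f → f < 3 * hi → path t lo hi r k f = true → Hop s f r := by
  induction k with
  | zero => intro f _ _ hp; simp [path] at hp
  | succ k ih =>
    intro f h1 h2 hp
    have e : T false s f = T false t f := by simp only [T, sw]; rw [h _ (by omega) (by omega)]
    simp only [path, Bool.or_eq_true, Bool.and_eq_true, beq_iff_eq, Nat.ble_eq, Nat.blt_eq, Bool.not_eq_true',
      ← e] at hp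
    rcases hp with hp | ⟨⟨⟨p1, p2⟩, p3⟩, p4⟩
    · exact ⟨1, one_pos, hp, fun j _ _ => by omega⟩
    · obtain ⟨m, m0, m1, m2⟩ := ih _ p1 p2 p4
      refine ⟨m + 1, by omega, m1, fun j j0 j1 => ?_⟩
      obtain ⟨j, rfl⟩ : ∃ i, j = i + 1 := ⟨j - 1, by omega⟩
      rcases Nat.eq_zero_or_pos j with rfl | j2
      · exact p3
      · exact m2 j j2 (by omega)

theorem avoid (s : ℕ → Bool) (C : ℕ → Prop) (f1 : ℕ) (h1 : ¬ C f1) (h2 : node f1 = true)
    (h : ∀ f, C f → ∃ r, C r ∧ Hop s f r) (m : ℕ) : ∀ f, C f → (T false s)^[m] f ≠ f1 := by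
  induction m using Nat.strong_induction_on with
  | _ m ih =>
    intro f hf he
    obtain ⟨r, hr, k, k0, k1, k2⟩ := h f hf
    rcases Nat.eq_zero_or_pos m with rfl | m0
    · exact h1 (he ▸ hf)
    by_cases hm : m < k
    · have := k2 m m0 hm
      rw [he, h2] at this; exact absurd this (by simp)
    · apply ih (m - k) (by omega) r hr
      rw [← k1, ← Function.iterate_add_apply, show m - k + k = m by omega, he]

def loc (lo n : ℕ) : ℕ → Bool := fun x => n.testBit (x - lo)

theorem ex_loc (s : ℕ → Bool) (lo m : ℕ) : ∃ n < 2 ^ m, ∀ x, lo ≤ x → x < lo + m → s x = loc lo n x :=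
  ⟨Nat.ofBits fun i : Fin m => s (lo + i), Nat.ofBits_lt_two_pow _, fun x h1 h2 => by
    rw [loc, Nat.testBit_ofBits_lt _ _ (by omega)]; simp [h1]⟩

def gad (lo m e1 r1 e2 r2 : ℕ) : Bool := (List.range (2 ^ m)).all fun n =>
  (path (loc lo n) lo (lo + m) r1 24 e1 && path (loc lo n) lo (lo + m) r2 24 e2) ||
  (List.range (3 * m)).any fun i => path (loc lo n) lo (lo + m) (3 * lo + i) 24 (3 * lo + i)

theorem gad_sound (s : ℕ → Bool) {lo m e1 r1 e2 r2 : ℕ} (h : gad lo m e1 r1 e2 r2 = true)
    (b1 : 3 * lo ≤ e1) (b2 : e1 < 3 * (lo + m)) (b3 : 3 * lo ≤ e2) (b4 : e2 < 3 * (lo + m)) (b5 : 0 < lo)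
    (b6 : lo + m ≤ 33) : (Hop s e1 r1 ∧ Hop s e2 r2) ∨ ∃ f < 99, f ≠ 2 ∧ Hop s f f := by
  obtain ⟨n, hn, hs⟩ := ex_loc s lo m
  simp only [gad, List.all_eq_true, List.mem_range, Bool.or_eq_true, Bool.and_eq_true, List.any_eq_true] at h
  rcases h n hn with ⟨h1, h2⟩ | ⟨i, hi, h1⟩
  · exact Or.inl ⟨path_sound hs _ _ b1 b2 h1, path_sound hs _ _ b3 b4 h2⟩
  · exact Or.inr ⟨3 * lo + i, by omega, by omega, path_sound hs _ _ (by omega) (by omega) h1⟩

theorem g1 : gad 3 7 9 8 18 1 = true := by decide +kernel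
theorem g2 : gad 10 7 30 9 39 4 = true := by decide +kernel
theorem g3 : gad 17 8 51 2 60 6 = true := by decide +kernel
theorem g4 : gad 25 8 75 5 84 51 = true := by decide +kernel

def Cs (n : ℕ) : List ℕ := ([[0, 60, 6, 30, 9, 8], [0, 18, 1, 60, 6, 30, 9, 8], [0, 60, 6, 30, 9, 8], [0, 18, 1, 60, 6, 30, 9, 8], [0, 60, 6], [0, 18, 1, 60, 6], [0, 60, 6], [0, 18, 1, 60, 6]] : List (List ℕ)).getD n []

theorem baseF : ∀ n < 2 ^ 3, 0 ∈ Cs n ∧ 2 ∉ Cs n ∧ ∀ f ∈ Cs n, (f < 9 ∧ T false (loc 0 n) f ∈ Cs n) ∨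
    ∃ e ∈ ents, e.1 = f ∧ e.2 ∈ Cs n := by decide +kernel

theorem split (s : ℕ → Bool) : ∃ f < 99, ∀ m, (T false s)^[m] f ≠ 2 := by
  have cl : (∃ f < 99, f ≠ 2 ∧ Hop s f f) → ∃ f < 99, ∀ m, (T false s)^[m] f ≠ 2 := fun ⟨f, h1, h2, h3⟩ =>
    ⟨f, h1, fun m => avoid s (· = f) 2 h2.symm rfl (fun g hg => ⟨f, rfl, hg ▸ h3⟩) m f rfl⟩
  rcases gad_sound s g1 (by omega) (by omega) (by omega) (by omega) (by omega) (by omega) with h1 | h
  swap; · exact cl h
  rcases gad_sound s g2 (by omega) (by omega) (by omega) (by omega) (by omega) (by omega) with h2 | h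
  swap; · exact cl h
  rcases gad_sound s g3 (by omega) (by omega) (by omega) (by omega) (by omega) (by omega) with h3 | h
  swap; · exact cl h
  rcases gad_sound s g4 (by omega) (by omega) (by omega) (by omega) (by omega) (by omega) with h4 | h
  swap; · exact cl h
  have he : ∀ e ∈ ents, Hop s e.1 e.2 := by
    simp only [ents, List.forall_mem_cons]
    exact ⟨h1.1, h1.2, h2.1, h2.2, h3.1, h3.2, h4.1, h4.2, by simp⟩
  obtain ⟨n, hn, hs⟩ := ex_loc s 0 3
  obtain ⟨b1, b2, b3⟩ := baseF n hn
  refine ⟨0, by omega, fun m => avoid s (· ∈ Cs n) 2 b2 rfl (fun f hf => ?_) m 0 b1⟩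
  rcases b3 f hf with ⟨t1, t2⟩ | ⟨e, t1, rfl, t2⟩
  · refine ⟨_, t2, 1, one_pos, ?_, fun j _ _ => by omega⟩
    simp only [Function.iterate_one, T, sw]; rw [hs _ (by omega) (by omega)]
  · exact ⟨_, t2, he e t1⟩

theorem down : ¬ Upper X (om false) := by
  rintro ⟨ρ, h1, h2, h3⟩
  have hac : ∀ f < 99, ρ (xF f) (aF false f) = cF false f := by
    intro f hf
    obtain ⟨t1, t2, t3, -⟩ := acfacts f hf
    have := congrArg Prod.snd (h2 _ _ t1)
    simp only [face] at this
    rw [t2, t3] at this; exact this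
  have hx : ∀ x : ℕ, ∃ b : Bool, x < 33 → ∀ i < 3, ρ (xF (3 * x)) (cF false (3 * x + i)) =
      aF false (3 * x + (i + if b then 1 else 2) % 3) := by
    intro x
    by_cases hx : x < 33
    swap; · exact ⟨true, fun h => absurd h hx⟩
    have e1 : xF (3 * x + 1) = xF (3 * x) := by simp only [xF]; congr 1; omega
    have e2 : xF (3 * x + 2) = xF (3 * x) := by simp only [xF]; congr 1; omega
    rcases rot (h1 (xF (3 * x))).1 (nbfacts x hx).1 (fun y => ((h1 _).2 y).trans ((nbfacts x hx).2 y))
      (hac _ (by omega)) (e1 ▸ hac (3 * x + 1) (by omega)) (e2 ▸ hac (3 * x + 2) (by omega)) with ⟨a, b, c⟩ | ⟨a, b, c⟩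
    · refine ⟨true, fun _ i hi => ?_⟩
      interval_cases i
      exacts [a, b, c]
    · refine ⟨false, fun _ i hi => ?_⟩
      interval_cases i
      exacts [a, b, c]
  choose s hs using hx
  have hρ : ∀ f < 99, ρ (xF f) (cF false f) = aF false (sw s f) := by
    intro f hf
    have := hs (f / 3) (by omega) (f % 3) (by omega)
    rw [show 3 * (f / 3) + f % 3 = f by omega, show xF (3 * (f / 3)) = xF f by simp only [xF]; congr 1; omega] at this
    exact this
  obtain ⟨f, hf, hm⟩ := split s
  obtain ⟨k, hk⟩ := h3 _ _ (acfacts f hf).2.2.2 (acfacts 2 (by omega)).2.2.2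
  obtain ⟨t1, t2⟩ := iter false s ρ hρ k f hf
  exact hm k (dart_inj _ t1 _ (by omega) (t2 ▸ hk))

theorem result : ∃ (X : Config 33) (ω ω' : Fin 33 → Perm (Fin 33)),
    IsOri X ω ∧ IsOri X ω' ∧ Upper X ω ∧ ¬ Upper X ω' :=
  ⟨X, om true, om false, ori true, ori false, up, down⟩

end Pool.Agent.Results.MP_e7dc11_co.V33
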